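import Pool.Agent.helper94.FJ.SpecP

/-! Row PBK of project fj (MP_ad8ced_nt) -/

set_option autoImplicit false

namespace Pool.Agent.FJ

open Finset ArithmeticFunction MeasureTheory
open Pool.Agent.CH (nit DPb)
open Pool.Agent.SK (tr0 Th muz sml bgf zN uu)
open Pool.Agent.helper85.BVP (tau)

/-! ### Large `N` -/

private theorem PBK_ev (s C : ℝ) (hs : 0 < s) : ∃ N₀ : ℕ, ∀ N : ℕ, N₀ ≤ N → C ≤ (N : ℝ) ^ s := by
  have h : Filter.Tendsto (fun N : ℕ => (N : ℝ) ^ s) Filter.atTop Filter.atTop :=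
    (tendsto_rpow_atTop hs).comp tendsto_natCast_atTop_atTop
  obtain ⟨N₀, h⟩ := Filter.eventually_atTop.1 (h.eventually_ge_atTop C)
  exact ⟨N₀, h⟩

private theorem PBK_evl (C : ℝ) : ∃ N₀ : ℕ, ∀ N : ℕ, N₀ ≤ N → C ≤ Real.log N := by
  have h : Filter.Tendsto (fun N : ℕ => Real.log (N : ℝ)) Filter.atTop Filter.atTop :=
    Real.tendsto_log_atTop.comp tendsto_natCast_atTop_atTop
  obtain ⟨N₀, h⟩ := Filter.eventually_atTop.1 (h.eventually_ge_atTop C)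
  exact ⟨N₀, h⟩

/-! ### The factors -/

private theorem PBK_kind (N z X : ℕ) (a b : Fin 0 → ℝ) (i : ℕ) (k : Fin (0 + 2 * i)) :
    uu N z X a b i k = muz z ∨ uu N z X a b i k = sml X 0 ∨ uu N z X a b i k = sml X 1 := by
  unfold uu
  have h : ¬ (k : ℕ) < 0 := Nat.not_lt_zero _
  rw [dif_neg h]
  split_ifs
  · exact Or.inl rfl
  · exact Or.inr (Or.inl rfl)
  · exact Or.inr (Or.inr rfl)

private theorem PBK_muz (z m : ℕ) : |muz z m| ≤ 1 ∧ (muz z m ≠ 0 → m ≤ z) := by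
  have e : muz z m = if m ≤ z then ((moebius m : ℤ) : ℝ) else 0 := rfl
  rw [e]
  split_ifs with h
  · refine ⟨?_, fun _ => h⟩
    have h1 : |moebius m| ≤ 1 := abs_moebius_le_one
    exact_mod_cast h1
  · exact ⟨by norm_num, fun h => absurd rfl h⟩

private theorem PBK_sml (X h m : ℕ) (hh : h ≤ 1) : |sml X h m| ≤ 1 + Real.log X := by
  have e : sml X h m = if 1 ≤ m ∧ m ≤ X then Real.log m ^ h else 0 := rfl
  have hX : 0 ≤ Real.log (X : ℝ) := Real.log_natCast_nonneg X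
  rw [e]
  split_ifs with h1
  · have h2 : 0 ≤ Real.log (m : ℝ) := Real.log_natCast_nonneg m
    have h3 : Real.log (m : ℝ) ≤ Real.log (X : ℝ) :=
      Real.log_le_log (by exact_mod_cast h1.1) (by exact_mod_cast h1.2)
    interval_cases h
    · rw [pow_zero, abs_one]
      linarith
    · rw [pow_one, abs_of_nonneg h2]
      linarith
  · rw [abs_zero]
    linarith

private theorem PBK_abs (N z X : ℕ) (a b : Fin 0 → ℝ) (i : ℕ) (k : Fin (0 + 2 * i)) (m : ℕ) :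
    |uu N z X a b i k m| ≤ 1 + Real.log X := by
  have hX : 0 ≤ Real.log (X : ℝ) := Real.log_natCast_nonneg X
  rcases PBK_kind N z X a b i k with e | e | e
  · rw [e]
    have := (PBK_muz z m).1
    linarith
  · rw [e]
    exact PBK_sml X 0 m (by norm_num)
  · rw [e]
    exact PBK_sml X 1 m le_rfl

private theorem PBK_logX {ε : ℝ} (hε : 0 < ε) (hε1 : ε ≤ 1 / 10) {N : ℕ} (hN : 1 ≤ N) :
    Real.log (XPc ε N) ≤ 2 * Real.log N := by
  have hN1 : (1 : ℝ) ≤ (N : ℝ) := by exact_mod_cast hN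
  have h1 : ((XPc ε N : ℕ) : ℝ) ≤ (N : ℝ) ^ (2 - 2 * ε) := Nat.floor_le (by positivity)
  have h2 : 0 < XPc ε N := by
    unfold XPc
    rw [Nat.floor_pos]
    exact Real.one_le_rpow hN1 (by linarith)
  have h3 : 0 ≤ Real.log (N : ℝ) := Real.log_nonneg hN1
  calc Real.log (XPc ε N) ≤ Real.log ((N : ℝ) ^ (2 - 2 * ε)) :=
        Real.log_le_log (by exact_mod_cast h2) h1
    _ = (2 - 2 * ε) * Real.log N := Real.log_rpow (by linarith) _
    _ ≤ 2 * Real.log N := mul_le_mul_of_nonneg_right (by linarith) h3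

private theorem PBK_coef {ε : ℝ} (hε : 0 < ε) (hε1 : ε ≤ 1 / 10) {N : ℕ} (hN : 1 ≤ N)
    (hL : 3 ≤ Real.log N) (a b : Fin 0 → ℝ) (i : ℕ)
    (k : Fin (0 + 2 * i)) {q : ℕ} (χ : DirichletCharacter ℂ q) (m : ℕ) :
    ‖((uu N (zN N) (XPc ε N) a b i k m : ℝ) : ℂ) * χ m‖ ≤ Real.log N ^ 2 := by
  have h1 := PBK_abs N (zN N) (XPc ε N) a b i k m
  have h2 := PBK_logX hε hε1 hN
  have h3 : ‖χ (m : ZMod q)‖ ≤ 1 := DirichletCharacter.norm_le_one χ _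
  rw [norm_mul, Complex.norm_real, Real.norm_eq_abs]
  calc |uu N (zN N) (XPc ε N) a b i k m| * ‖χ (m : ZMod q)‖ ≤ |uu N (zN N) (XPc ε N) a b i k m| * 1 :=
        mul_le_mul_of_nonneg_left h3 (abs_nonneg _)
    _ = |uu N (zN N) (XPc ε N) a b i k m| := mul_one _
    _ ≤ 1 + 2 * Real.log N := by linarith
    _ ≤ Real.log N ^ 2 := by nlinarith

private theorem PBK_cont (M : ℕ) (a : ℕ → ℂ) : Continuous (DPb M a) := by
  unfold DPb nit
  fun_prop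

private theorem PBK_triv (M : ℕ) (a : ℕ → ℂ) (L : ℝ) (h : ∀ m, ‖a m‖ ≤ L) (t : ℝ) :
    ‖DPb M a t‖ ≤ M * L := by
  unfold DPb
  refine (norm_sum_le _ _).trans ?_
  have h1 : ∀ m ∈ Ico M (2 * M), ‖a m * nit t m‖ ≤ L := by
    intro m _
    have h2 : ‖nit t (m : ℝ)‖ = 1 := by
      rw [Pool.Agent.CH.nit, Complex.norm_exp_ofReal_mul_I]
    rw [norm_mul, h2, mul_one]
    exact h m
  refine (Finset.sum_le_sum h1).trans ?_
  rw [Finset.sum_const, Nat.card_Ico, nsmul_eq_mul]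
  have e : 2 * M - M = M := by omega
  rw [e]

private theorem PBK_tau (n : ℕ) (hn : 1 ≤ n) : 1 ≤ tau n := by
  unfold tau
  have h : 0 < #n.divisors := Finset.card_pos.2 ⟨1, Nat.one_mem_divisors.2 (by omega)⟩
  exact_mod_cast h

/-! ### Sizes -/

private theorem PBK_nc {ε : ℝ} {N : ℕ} (a b : Fin 0 → ℝ) (i : ℕ) (k : Fin (0 + 2 * i))
    {M m : ℕ} (hm : M ≤ m) (hne : uu N (zN N) (XPc ε N) a b i k m ≠ 0) :
    (M : ℝ) ≤ 4 * (N : ℝ) ^ (3 / 7 : ℝ) ∨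
      ∃ h : ℕ, h ≤ 1 ∧ uu N (zN N) (XPc ε N) a b i k = sml (XPc ε N) h := by
  have hz : ((zN N : ℕ) : ℝ) ≤ 4 * (N : ℝ) ^ (3 / 7 : ℝ) := Nat.floor_le (by positivity)
  have hmr : (M : ℝ) ≤ (m : ℝ) := by exact_mod_cast hm
  rcases PBK_kind N (zN N) (XPc ε N) a b i k with e | e | e
  · rw [e] at hne
    have h1 : (m : ℝ) ≤ (zN N : ℝ) := by exact_mod_cast (PBK_muz _ _).2 hne
    exact Or.inl (hmr.trans (h1.trans hz))
  · exact Or.inr ⟨0, by norm_num, e⟩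
  · exact Or.inr ⟨1, le_rfl, e⟩

private theorem PBK_prod {R : ℕ} (hR : R ≤ 14) (M : Fin R → ℕ) (M₀ x : ℝ) (hx : 1 ≤ x) (hM₀ : 1 ≤ M₀)
    (hM : ∀ k, (M k : ℝ) ≤ M₀) (hc : #(univ.filter fun k : Fin R => x ≤ (M k : ℝ)) ≤ 2) :
    ∏ k, (M k : ℝ) ≤ M₀ ^ 2 * x ^ 14 := by
  have h1 : ∏ k, (M k : ℝ) ≤ ∏ k, (if x ≤ (M k : ℝ) then M₀ else x) := by
    apply Finset.prod_le_prod
    · intro k _
      positivity
    · intro k _
      split_ifs with h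
      · exact hM k
      · exact (not_le.1 h).le
  refine h1.trans ?_
  rw [Finset.prod_ite, Finset.prod_const, Finset.prod_const]
  apply mul_le_mul
  · exact pow_le_pow_right₀ hM₀ hc
  · refine pow_le_pow_right₀ hx ?_
    refine (Finset.card_le_univ _).trans ?_
    rw [Fintype.card_fin]
    exact hR
  · positivity
  · positivity

/-- at most two blocks are long -/
private theorem PBK_two {R : ℕ} (M : Fin R → ℕ) (x y P : ℝ) (hy : 1 ≤ y) (h1 : ∀ k, 1 ≤ M k)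
    (hd : ∀ k, (M k : ℝ) < x ∨ y < (M k : ℝ)) (hP : ∏ k, (M k : ℝ) ≤ P) (hyP : P < y ^ 3) :
    #(univ.filter fun k : Fin R => x ≤ (M k : ℝ)) ≤ 2 := by
  by_contra hcon
  have h3 : 3 ≤ #(univ.filter fun k : Fin R => x ≤ (M k : ℝ)) := by omega
  have h4 : ∏ k ∈ univ.filter (fun k : Fin R => x ≤ (M k : ℝ)), (M k : ℝ) ≤ ∏ k, (M k : ℝ) := by
    apply Finset.prod_le_prod_of_subset_of_one_le
    · exact Finset.filter_subset _ _
    · intro k _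
      positivity
    · intro k _ _
      exact_mod_cast h1 k
  have h5 : y ^ #(univ.filter fun k : Fin R => x ≤ (M k : ℝ)) ≤
      ∏ k ∈ univ.filter (fun k : Fin R => x ≤ (M k : ℝ)), (M k : ℝ) := by
    rw [← Finset.prod_const]
    apply Finset.prod_le_prod
    · intro k _
      linarith
    · intro k hk
      rcases hd k with h | h
      · exact absurd (Finset.mem_filter.1 hk).2 (not_le.2 h)
      · exact h.le
  have h6 : y ^ 3 ≤ y ^ #(univ.filter fun k : Fin R => x ≤ (M k : ℝ)) := pow_le_pow_right₀ hy h3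
  linarith

private theorem PBK_big {R : ℕ} (hR : R ≤ 14) (M : Fin R → ℕ) (N : ℕ) (ε : ℝ) (hN : 1 ≤ N)
    (hε : 0 < ε) (h8 : 9 ≤ (N : ℝ) ^ (6 * ε)) (h18 : (2 : ℝ) ^ 18 + 1 ≤ (N : ℝ) ^ (1 / 10 : ℝ))
    (h1 : ∀ k, 1 ≤ M k) (hd : ∀ k, (M k : ℝ) < (N : ℝ) ^ (1 / 1000 : ℝ) ∨ (N : ℝ) ^ (1 + 2 * ε) < (M k : ℝ))
    (hP1 : (N : ℝ) ^ 3 ≤ 2 ^ 18 * ∏ k, (M k : ℝ)) (hP2 : ∏ k, (M k : ℝ) ≤ 8 * (N : ℝ) ^ 3) (k₀ : Fin R)
    (hk₀ : ∀ k, (M k : ℝ) ≤ (M k₀ : ℝ)) : (N : ℝ) ^ (14 / 10 : ℝ) ≤ (M k₀ : ℝ) := by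
  have hN1r : (1 : ℝ) ≤ (N : ℝ) := by exact_mod_cast hN
  have hN0r : (0 : ℝ) < (N : ℝ) := by linarith
  have hx : (1 : ℝ) ≤ (N : ℝ) ^ (1 / 1000 : ℝ) := Real.one_le_rpow hN1r (by norm_num)
  have hy : (1 : ℝ) ≤ (N : ℝ) ^ (1 + 2 * ε) := Real.one_le_rpow hN1r (by linarith)
  have hM₀ : (1 : ℝ) ≤ (M k₀ : ℝ) := by exact_mod_cast h1 k₀
  have hy3 : ((N : ℝ) ^ (1 + 2 * ε)) ^ 3 = (N : ℝ) ^ 3 * (N : ℝ) ^ (6 * ε) := by
    rw [← Real.rpow_mul_natCast hN0r.le, ← Real.rpow_natCast (N : ℝ) 3, ← Real.rpow_add hN0r]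
    congr 1
    push_cast
    ring
  have hN3 : 0 < (N : ℝ) ^ 3 := by positivity
  have hc := PBK_two M _ _ (8 * (N : ℝ) ^ 3) hy h1 hd hP2 (by rw [hy3]; nlinarith)
  have hp := PBK_prod hR M (M k₀ : ℝ) _ hx hM₀ hk₀ hc
  have h10 : ((N : ℝ) ^ (1 / 1000 : ℝ)) ^ 14 = (N : ℝ) ^ (14 / 1000 : ℝ) := by
    rw [← Real.rpow_mul_natCast hN0r.le]
    norm_num
  rw [h10] at hp
  by_contra hlt
  have hlt' := not_le.1 hlt
  have h11 : (M k₀ : ℝ) ^ 2 ≤ (N : ℝ) ^ (28 / 10 : ℝ) := by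
    calc (M k₀ : ℝ) ^ 2 ≤ ((N : ℝ) ^ (14 / 10 : ℝ)) ^ 2 := pow_le_pow_left₀ (by linarith) hlt'.le 2
      _ = (N : ℝ) ^ (28 / 10 : ℝ) := by
          rw [← Real.rpow_mul_natCast hN0r.le]
          norm_num
  have h12 : (N : ℝ) ^ 3 ≤ 2 ^ 18 * (N : ℝ) ^ (29 / 10 : ℝ) := by
    calc (N : ℝ) ^ 3 ≤ 2 ^ 18 * ∏ k, (M k : ℝ) := hP1
      _ ≤ 2 ^ 18 * ((M k₀ : ℝ) ^ 2 * (N : ℝ) ^ (14 / 1000 : ℝ)) :=
          mul_le_mul_of_nonneg_left hp (by positivity)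
      _ ≤ 2 ^ 18 * ((N : ℝ) ^ (28 / 10 : ℝ) * (N : ℝ) ^ (14 / 1000 : ℝ)) :=
          mul_le_mul_of_nonneg_left (mul_le_mul_of_nonneg_right h11 (by positivity)) (by positivity)
      _ = 2 ^ 18 * (N : ℝ) ^ (28 / 10 + 14 / 1000 : ℝ) := by rw [Real.rpow_add hN0r]
      _ ≤ 2 ^ 18 * (N : ℝ) ^ (29 / 10 : ℝ) :=
          mul_le_mul_of_nonneg_left (Real.rpow_le_rpow_of_exponent_le hN1r (by norm_num)) (by positivity)
  have h13 : (N : ℝ) ^ 3 = (N : ℝ) ^ (29 / 10 : ℝ) * (N : ℝ) ^ (1 / 10 : ℝ) := by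
    rw [← Real.rpow_add hN0r]
    norm_num
  have h14 : 0 < (N : ℝ) ^ (29 / 10 : ℝ) := by positivity
  rw [h13] at h12
  nlinarith

private theorem PBK_zY {N : ℕ} (hN : 16 ≤ N) : 4 * (N : ℝ) ^ (3 / 7 : ℝ) < (N : ℝ) ^ (14 / 10 : ℝ) := by
  have hNr : (16 : ℝ) ≤ (N : ℝ) := by exact_mod_cast hN
  have hN1r : (1 : ℝ) < (N : ℝ) := by linarith
  have hN0r : (0 : ℝ) < (N : ℝ) := by linarith
  have h5 : (4 : ℝ) ≤ (N : ℝ) ^ (1 / 2 : ℝ) := by
    rw [← Real.sqrt_eq_rpow]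
    apply Real.le_sqrt_of_sq_le
    norm_num
    linarith
  calc 4 * (N : ℝ) ^ (3 / 7 : ℝ) ≤ (N : ℝ) ^ (1 / 2 : ℝ) * (N : ℝ) ^ (3 / 7 : ℝ) :=
        mul_le_mul_of_nonneg_right h5 (by positivity)
    _ = (N : ℝ) ^ (1 / 2 + 3 / 7 : ℝ) := (Real.rpow_add hN0r _ _).symm
    _ < (N : ℝ) ^ (14 / 10 : ℝ) := Real.rpow_lt_rpow_of_exponent_lt hN1r (by norm_num)

private theorem PBK_i (hPMV : PMV_stmt) (hPIN : PIN_stmt) (hPB2 : PB2_stmt) (hPB3 : PB3_stmt)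
    (hSPK : Pool.Agent.SK.SPK_stmt) (hVDK : Pool.Agent.SK.VDK_stmt) (ε : ℝ) (hε : 0 < ε) (hε1 : ε ≤ 1 / 10)
    (A Bq i : ℕ) : ∃ B₀ : ℕ, ∀ B : ℕ, B₀ ≤ B → ∃ N₀ : ℕ, i ∈ Icc 1 7 → ∀ N : ℕ, N₀ ≤ N →
  ∀ δ : ℝ, (N : ℝ) ^ (-2 + 8 * ε) ≤ δ → δ ≤ 1 / Real.log N ^ B → ∀ q : ℕ, 1 ≤ q → (q : ℝ) ≤ Real.log N ^ Bq →
  ∀ χ : DirichletCharacter ℂ q, ∀ a b : Fin 0 → ℝ, ∀ e : Fin (0 + 2 * i) → ℕ,
  N ^ 3 ≤ 2 ^ (2 * i + 4) * ∏ k, 2 ^ e k → ∏ k, 2 ^ e k ≤ 8 * N ^ 3 →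
  ∫ t : ℝ, ‖∏ k, DPb (2 ^ e k) (fun m => ((uu N (zN N) (XPc ε N) a b i k m : ℝ) : ℂ) * χ m) t‖ ^ 2 * wkt δ (1 / Real.log N ^ B) t ≤
    δ ^ 2 * (N : ℝ) ^ 6 / Real.log N ^ A := by
  obtain ⟨K, N₁, HM⟩ := hPMV (0 + 2 * i) 2
  obtain ⟨A₁, N₂, H2⟩ := hPB2 ε hε hε1 (0 + 2 * i) K (A + 1)
  obtain ⟨B₁, N₃, HS⟩ := hSPK A₁ Bq (1 / 1000) (by norm_num)
  obtain ⟨B₂, H3⟩ := hPB3 ε hε hε1 K (Bq + 3) (A + 1)
  obtain ⟨N₄, H3⟩ := H3 (max B₁ B₂) (le_max_right _ _)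
  obtain ⟨B₀, HP⟩ := hPIN ε hε hε1 A (4 * (0 + 2 * i) + 1) (K + 1) (max B₁ B₂)
  obtain ⟨C, hC, HV⟩ := hVDK
  obtain ⟨N₆, hN₆⟩ := PBK_evl (5 * C + 100)
  obtain ⟨N₇, hN₇⟩ := PBK_ev (6 * ε) 9 (by linarith)
  obtain ⟨N₈, hN₈⟩ := PBK_ev (1 / 10) (2 ^ 18 + 1) (by norm_num)
  refine ⟨B₀, fun B hB => ?_⟩
  obtain ⟨N₅, HP⟩ := HP B hB
  refine ⟨(max (max N₁ N₂) (max N₃ N₄)) + (max (max N₅ N₆) (max N₇ N₈)) + 16, ?_⟩
  intro hi N hN δ hδ1 hδ2 q hq hqL χ a b e he1 he2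
  have hN1' : N₁ ≤ N := by omega
  have hN2' : N₂ ≤ N := by omega
  have hN3' : N₃ ≤ N := by omega
  have hN4' : N₄ ≤ N := by omega
  have hN5' : N₅ ≤ N := by omega
  have hN6' : N₆ ≤ N := by omega
  have hN7' : N₇ ≤ N := by omega
  have hN8' : N₈ ≤ N := by omega
  have hN16 : 16 ≤ N := by omega
  have hL := hN₆ N hN6'
  have h9 := hN₇ N hN7'
  have h18 := hN₈ N hN8'
  have hN1 : 1 ≤ N := by omega
  have hN1r : (1 : ℝ) ≤ (N : ℝ) := by exact_mod_cast hN1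
  have hN0r : (0 : ℝ) < (N : ℝ) := by linarith
  have hi' := Finset.mem_Icc.1 hi
  have hL100 : 100 ≤ Real.log N := by linarith
  have hL0 : 0 < Real.log N := by linarith
  have hN3 : 0 < (N : ℝ) ^ 3 := by positivity
  by_cases hv : ∃ k, ∀ m ∈ Ico (2 ^ e k) (2 * 2 ^ e k),
      ((uu N (zN N) (XPc ε N) a b i k m : ℝ) : ℂ) * χ m = 0
  · obtain ⟨k, hk⟩ := hv
    have h0 : ∀ t : ℝ, ‖∏ k, DPb (2 ^ e k) (fun m => ((uu N (zN N) (XPc ε N) a b i k m : ℝ) : ℂ) * χ m) t‖ ^ 2 *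
        wkt δ (1 / Real.log N ^ B) t = 0 := by
      intro t
      have h1 : DPb (2 ^ e k) (fun m => ((uu N (zN N) (XPc ε N) a b i k m : ℝ) : ℂ) * χ m) t = 0 := by
        unfold DPb
        apply Finset.sum_eq_zero
        intro m hm
        beta_reduce
        rw [hk m hm, zero_mul]
      rw [Finset.prod_eq_zero (Finset.mem_univ k) h1, norm_zero]
      ring
    simp only [h0, integral_zero]
    exact div_nonneg (by positivity) (pow_nonneg hL0.le _)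
  push Not at hv
  obtain ⟨M, hM⟩ : ∃ M : Fin (0 + 2 * i) → ℕ, M = fun k => 2 ^ e k := ⟨_, rfl⟩
  obtain ⟨c, hc⟩ : ∃ c : Fin (0 + 2 * i) → ℕ → ℂ, c = fun k m =>
    ((uu N (zN N) (XPc ε N) a b i k m : ℝ) : ℂ) * χ m := ⟨_, rfl⟩
  have hMk : ∀ k, 2 ^ e k = M k := fun k => by rw [hM]
  have hck : ∀ k, (fun m : ℕ => ((uu N (zN N) (XPc ε N) a b i k m : ℝ) : ℂ) * χ m) = c k := fun k => by rw [hc]
  simp only [hMk, hck] at he1 he2 ⊢
  have hM1 : ∀ k, 1 ≤ M k := fun k => by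
    rw [← hMk]
    exact Nat.one_le_two_pow
  have hcn : ∀ k m, ‖c k m‖ ≤ Real.log N ^ 2 := by
    intro k m
    rw [hc]
    exact PBK_coef hε hε1 hN1 (by linarith) a b i k χ m
  have he64 : ∏ k, M k ≤ 64 * N ^ 3 := he2.trans (Nat.mul_le_mul_right _ (by norm_num))
  have HMv := HM N hN1' M c hM1 he64 (by
    intro k m hm _
    refine (hcn k m).trans ?_
    have h1 : 1 ≤ tau m := PBK_tau m ((hM1 k).trans hm)
    have h2 : (1 : ℝ) ≤ tau m ^ 2 := one_le_pow₀ h1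
    exact le_mul_of_one_le_right (by positivity) h2)
  have hPr : ∏ k, (M k : ℝ) ≤ 8 * (N : ℝ) ^ 3 := by exact_mod_cast he2
  have he1r : (N : ℝ) ^ 3 ≤ 2 ^ 18 * ∏ k, (M k : ℝ) := by
    have h1 : (N : ℝ) ^ 3 ≤ 2 ^ (2 * i + 4) * ∏ k, (M k : ℝ) := by exact_mod_cast he1
    refine h1.trans (mul_le_mul_of_nonneg_right ?_ (Finset.prod_nonneg fun k _ => by positivity))
    exact pow_le_pow_right₀ (by norm_num) (by omega)
  have hcont : Continuous (fun t : ℝ => ‖∏ k, DPb (M k) (c k) t‖ ^ 2) :=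
    (continuous_finsetProd _ fun k _ => PBK_cont (M k) (c k)).norm.pow 2
  refine (HP N hN5' δ hδ1 hδ2 (fun t => ‖∏ k, DPb (M k) (c k) t‖ ^ 2) hcont (fun t => by positivity) ?_ ?_ ?_).2
  · -- trivial bound
    intro t
    have h1 : ‖∏ k, DPb (M k) (c k) t‖ ≤ 8 * (N : ℝ) ^ 3 * (Real.log N ^ 2) ^ (0 + 2 * i) := by
      rw [norm_prod]
      calc ∏ k, ‖DPb (M k) (c k) t‖ ≤ ∏ k, ((M k : ℝ) * Real.log N ^ 2) :=
            Finset.prod_le_prod (fun k _ => norm_nonneg _) (fun k _ => PBK_triv (M k) (c k) _ (hcn k) t)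
        _ = (∏ k, (M k : ℝ)) * (Real.log N ^ 2) ^ (0 + 2 * i) := by
            rw [Finset.prod_mul_distrib, Finset.prod_const, Finset.card_univ, Fintype.card_fin]
        _ ≤ _ := mul_le_mul_of_nonneg_right hPr (by positivity)
    calc ‖∏ k, DPb (M k) (c k) t‖ ^ 2 ≤ (8 * (N : ℝ) ^ 3 * (Real.log N ^ 2) ^ (0 + 2 * i)) ^ 2 :=
          pow_le_pow_left₀ (norm_nonneg _) h1 2
      _ = 64 * ((N : ℝ) ^ 6 * Real.log N ^ (4 * (0 + 2 * i))) := by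
          rw [← pow_mul, mul_pow, mul_pow, ← pow_mul, ← pow_mul]
          have e1 : 2 * (0 + 2 * i) * 2 = 4 * (0 + 2 * i) := by ring
          rw [e1]
          norm_num
          ring
      _ ≤ Real.log N * ((N : ℝ) ^ 6 * Real.log N ^ (4 * (0 + 2 * i))) :=
          mul_le_mul_of_nonneg_right (by linarith) (by positivity)
      _ = (N : ℝ) ^ 6 * Real.log N ^ (4 * (0 + 2 * i) + 1) := by rw [pow_succ]; ring
  · -- mean value
    intro T hT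
    refine (HMv univ T hT).trans ?_
    have h1 : ((∏ k, M k : ℕ) : ℝ) ≤ 8 * (N : ℝ) ^ 3 := by exact_mod_cast he2
    have h2 : (0 : ℝ) ≤ ((∏ k, M k : ℕ) : ℝ) := Nat.cast_nonneg _
    have hLK : 0 < Real.log N ^ K := pow_pos hL0 K
    calc (T + ((∏ k, M k : ℕ) : ℝ)) * ((∏ k, M k : ℕ) : ℝ) * Real.log N ^ K ≤
        (8 * (T + (N : ℝ) ^ 3)) * (8 * (N : ℝ) ^ 3) * Real.log N ^ K := by
          refine mul_le_mul_of_nonneg_right (mul_le_mul ?_ h1 h2 (by positivity)) hLK.le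
          linarith
      _ = 64 * ((T + (N : ℝ) ^ 3) * (N : ℝ) ^ 3 * Real.log N ^ K) := by ring
      _ ≤ Real.log N * ((T + (N : ℝ) ^ 3) * (N : ℝ) ^ 3 * Real.log N ^ K) :=
          mul_le_mul_of_nonneg_right (by linarith) (by positivity)
      _ = (T + (N : ℝ) ^ 3) * (N : ℝ) ^ 3 * Real.log N ^ (K + 1) := by rw [pow_succ]; ring
  · -- the middle range
    by_cases hmed : ∃ k, (N : ℝ) ^ (1 / 1000 : ℝ) ≤ (M k : ℝ) ∧ (M k : ℝ) ≤ (N : ℝ) ^ (1 + 2 * ε)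
    · obtain ⟨k, hk1, hk2⟩ := hmed
      have e0 : 2 ^ (0 + 2 * i + 4) = 2 ^ (2 * i + 4) := by rw [Nat.zero_add]
      refine H2 N hN2' (max B₁ B₂) M (fun k t => DPb (M k) (c k) t) k (fun k => PBK_cont (M k) (c k)) hM1
        (by rw [e0]; exact he1) he2 hk2 ?_ (fun T hT => HMv (univ.erase k) T hT)
      intro t ht
      have h1 : (∃ z, uu N (zN N) (XPc ε N) a b i k = muz z) ∨ (∃ X, uu N (zN N) (XPc ε N) a b i k = sml X 0) ∨
          (∃ X, uu N (zN N) (XPc ε N) a b i k = sml X 1) ∨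
            ∃ a' b' : ℝ, uu N (zN N) (XPc ε N) a b i k = Pool.Agent.SK.cel a' b' := by
        rcases PBK_kind N (zN N) (XPc ε N) a b i k with h | h | h
        · exact Or.inl ⟨_, h⟩
        · exact Or.inr (Or.inl ⟨_, h⟩)
        · exact Or.inr (Or.inr (Or.inl ⟨_, h⟩))
      have h2 : M k ≤ 64 * N ^ 3 :=
        (Finset.single_le_prod' (f := M) (fun k _ => hM1 k) (Finset.mem_univ k)).trans he64
      have h3 := HS N hN3' q hq hqL χ _ h1 (M k) hk1 h2 t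
        ((pow_le_pow_right₀ (by linarith) (le_max_left _ _)).trans ht.1)
        (ht.2.trans (by
          have h7 : (N : ℝ) ^ (2 : ℝ) = (N : ℝ) ^ 2 := by norm_num
          rw [← h7]
          exact Real.rpow_le_rpow_of_exponent_le hN1r (by linarith)))
      rw [hck k] at h3
      exact h3
    · push Not at hmed
      have hd : ∀ k, (M k : ℝ) < (N : ℝ) ^ (1 / 1000 : ℝ) ∨ (N : ℝ) ^ (1 + 2 * ε) < (M k : ℝ) := by
        intro k
        rcases lt_or_ge (M k : ℝ) ((N : ℝ) ^ (1 / 1000 : ℝ)) with h | h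
        · exact Or.inl h
        · exact Or.inr (hmed k h)
      have : Nonempty (Fin (0 + 2 * i)) := ⟨⟨0, by omega⟩⟩
      obtain ⟨k₀, hk₀⟩ := Finite.exists_max M
      have hk₀r : ∀ k, (M k : ℝ) ≤ (M k₀ : ℝ) := fun k => by exact_mod_cast hk₀ k
      have hbig := PBK_big (by omega) M N ε hN1 hε h9 h18 hM1 hd he1r hPr k₀ hk₀r
      have hu : ∃ h : ℕ, h ≤ 1 ∧ uu N (zN N) (XPc ε N) a b i k₀ = sml (XPc ε N) h := by
        obtain ⟨m, hm, hne⟩ := hv k₀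
        have h5 := PBK_nc (ε := ε) a b i k₀ (Finset.mem_Ico.1 hm).1 (by
          intro h0
          apply hne
          rw [h0]
          simp)
        rcases h5 with h | h
        · exfalso
          have h6 : ((2 ^ e k₀ : ℕ) : ℝ) = (M k₀ : ℝ) := by rw [hMk]
          rw [h6] at h
          exact absurd (hbig.trans h) (not_le.2 (PBK_zY hN16))
        · exact h
      obtain ⟨h, hh, hu⟩ := hu
      have hprodE : M k₀ * ∏ k ∈ univ.erase k₀, M k = ∏ k, M k :=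
        Finset.mul_prod_erase univ M (Finset.mem_univ k₀)
      have hn1 : 1 ≤ ∏ k ∈ univ.erase k₀, M k := Nat.succ_le_of_lt (Finset.prod_pos fun k _ => hM1 k)
      have h5 := H3 N hN4' (M k₀) (∏ k ∈ univ.erase k₀, M k) (DPb (M k₀) (c k₀))
        (fun t => ∏ k ∈ univ.erase k₀, DPb (M k) (c k) t) (PBK_cont _ _)
        (continuous_finsetProd _ fun k _ => PBK_cont (M k) (c k)) (hM1 k₀) hn1
        (by rw [hprodE]; exact he64) hbig ?_ (fun T hT => HMv (univ.erase k₀) T hT)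
      · have h6 : ∀ t : ℝ, DPb (M k₀) (c k₀) t * ∏ k ∈ univ.erase k₀, DPb (M k) (c k) t =
            ∏ k, DPb (M k) (c k) t := fun t =>
          Finset.mul_prod_erase univ (fun k => DPb (M k) (c k) t) (Finset.mem_univ k₀)
        simp only [h6] at h5
        exact h5
      · intro t ht
        have h5 := HV q hq χ (XPc ε N) h (M k₀) t hh (hM1 k₀) ht
        rw [← hu, hck k₀] at h5
        refine h5.trans (mul_le_mul_of_nonneg_right ?_ (by positivity))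
        have hM₀ : (1 : ℝ) ≤ (M k₀ : ℝ) := by exact_mod_cast hM1 k₀
        have h6 : M k₀ ≤ 8 * N ^ 3 :=
          (Finset.single_le_prod' (f := M) (fun k _ => hM1 k) (Finset.mem_univ k₀)).trans he2
        have h7 : 2 * (M k₀ : ℝ) ≤ 16 * (N : ℝ) ^ 3 := by
          have : (M k₀ : ℝ) ≤ 8 * (N : ℝ) ^ 3 := by exact_mod_cast h6
          linarith
        have h8 : Real.log (2 * (M k₀ : ℝ)) ≤ 3 + 3 * Real.log N := by
          calc Real.log (2 * (M k₀ : ℝ)) ≤ Real.log (16 * (N : ℝ) ^ 3) :=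
                Real.log_le_log (by positivity) h7
            _ = Real.log 16 + 3 * Real.log N := by
                rw [Real.log_mul (by norm_num) (by positivity), Real.log_pow]
                norm_num
            _ ≤ 3 + 3 * Real.log N := by
                have h16 : Real.log 16 = 4 * Real.log 2 := by
                  rw [show (16 : ℝ) = 2 ^ 4 by norm_num, Real.log_pow]
                  norm_num
                have := Real.log_two_lt_d9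
                rw [h16]
                linarith
        have hLB : 0 < Real.log N ^ Bq := pow_pos (by linarith) _
        have h9 : 0 ≤ 1 + Real.log (2 * (M k₀ : ℝ)) := by
          have : 0 ≤ Real.log (2 * (M k₀ : ℝ)) := Real.log_nonneg (by linarith)
          linarith
        calc C * q * (1 + Real.log (2 * (M k₀ : ℝ))) ≤ C * Real.log N ^ Bq * (5 * Real.log N) := by
              apply mul_le_mul
              · exact mul_le_mul_of_nonneg_left hqL hC.le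
              · linarith
              · exact h9
              · positivity
          _ = Real.log N ^ Bq * (Real.log N * (5 * C)) := by ring
          _ ≤ Real.log N ^ Bq * Real.log N ^ 3 := by
              apply mul_le_mul_of_nonneg_left _ hLB.le
              have h10 : 5 * C ≤ Real.log N ^ 2 := by nlinarith
              calc Real.log N * (5 * C) ≤ Real.log N * Real.log N ^ 2 :=
                    mul_le_mul_of_nonneg_left h10 (by linarith)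
                _ = Real.log N ^ 3 := by ring
          _ = Real.log N ^ (Bq + 3) := by rw [pow_add]

/-- **PBK** -/
theorem PBK (hPMV : PMV_stmt) (hPIN : PIN_stmt) (hPB2 : PB2_stmt) (hPB3 : PB3_stmt)
    (hSPK : Pool.Agent.SK.SPK_stmt) (hVDK : Pool.Agent.SK.VDK_stmt) : PBK_stmt := by
  intro ε hε hε1 A Bq
  have H := fun i : ℕ => PBK_i hPMV hPIN hPB2 hPB3 hSPK hVDK ε hε hε1 A Bq i
  choose B₀ H using H
  refine ⟨(Icc 1 7).sup B₀, fun B hB => ?_⟩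
  have H' : ∀ i : ℕ, ∃ N₀ : ℕ, i ∈ Icc 1 7 → ∀ N : ℕ, N₀ ≤ N →
      ∀ δ : ℝ, (N : ℝ) ^ (-2 + 8 * ε) ≤ δ → δ ≤ 1 / Real.log N ^ B → ∀ q : ℕ, 1 ≤ q → (q : ℝ) ≤ Real.log N ^ Bq →
      ∀ χ : DirichletCharacter ℂ q, ∀ a b : Fin 0 → ℝ, ∀ e : Fin (0 + 2 * i) → ℕ,
      N ^ 3 ≤ 2 ^ (2 * i + 4) * ∏ k, 2 ^ e k → ∏ k, 2 ^ e k ≤ 8 * N ^ 3 →
      ∫ t : ℝ, ‖∏ k, DPb (2 ^ e k) (fun m => ((uu N (zN N) (XPc ε N) a b i k m : ℝ) : ℂ) * χ m) t‖ ^ 2 *
        wkt δ (1 / Real.log N ^ B) t ≤ δ ^ 2 * (N : ℝ) ^ 6 / Real.log N ^ A := by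
    intro i
    by_cases hi : i ∈ Icc 1 7
    · exact H i B ((Finset.le_sup (f := B₀) hi).trans hB)
    · exact ⟨0, fun h => absurd h hi⟩
  choose N₀ H' using H'
  refine ⟨(Icc 1 7).sup N₀, ?_⟩
  intro N hN δ hδ1 hδ2 q hq hqL χ a b i hi e he1 he2
  exact H' i hi N ((Finset.le_sup (f := N₀) hi).trans hN) δ hδ1 hδ2 q hq hqL χ a b e he1 he2

end Pool.Agent.FJ
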